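import Pool.Agent.H379R3.CDQ.Stmts

/-!
# Task Per of the project H379-CDQ
-/

set_option autoImplicit false

open Set Topology

namespace Pool.Agent.H99R3.CDQ

open Pool.Agent.H379R3.CDQ

theorem taskPer : TaskPer := by
  intro G _ _ _ _ M n f hf
  let U : Subgroup G :=
    { carrier := {u | ∀ (g : G) (v : Fin n → G),
        f (Fin.cons (g * u) v : Fin (n + 1) → G) = f (Fin.cons g v : Fin (n + 1) → G)}
      mul_mem' := by
        intro a b ha hb g v
        rw [← mul_assoc, hb, ha]
      one_mem' := by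
        intro g v
        rw [mul_one]
      inv_mem' := by
        intro a ha g v
        have := ha (g * a⁻¹) v
        rw [inv_mul_cancel_right] at this
        exact this.symm }
  refine ⟨U, ?_, fun u hu => hu⟩
  have c1 : Continuous (fun p : G × (G × (Fin n → G)) =>
      (Fin.cons (p.2.1 * p.1) p.2.2 : Fin (n + 1) → G)) := by
    refine continuous_pi (fun i => ?_)
    refine Fin.cases ?_ (fun j => ?_) i
    · simp only [Fin.cons_zero]
      fun_prop
    · simp only [Fin.cons_succ]
      fun_prop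
  have c2 : Continuous (fun p : G × (G × (Fin n → G)) =>
      (Fin.cons p.2.1 p.2.2 : Fin (n + 1) → G)) := by
    refine continuous_pi (fun i => ?_)
    refine Fin.cases ?_ (fun j => ?_) i
    · simp only [Fin.cons_zero]
      fun_prop
    · simp only [Fin.cons_succ]
      fun_prop
  have l1 := hf.comp_continuous c1
  have l2 := hf.comp_continuous c2
  have hW : IsOpen {p : G × (G × (Fin n → G)) |
      f (Fin.cons (p.2.1 * p.1) p.2.2 : Fin (n + 1) → G) =
        f (Fin.cons p.2.1 p.2.2 : Fin (n + 1) → G)} := by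
    rw [isOpen_iff_mem_nhds]
    intro p hp
    filter_upwards [l1.eventually_eq p, l2.eventually_eq p] with q hq1 hq2
    have hp' : f (Fin.cons (p.2.1 * p.1) p.2.2 : Fin (n + 1) → G) =
        f (Fin.cons p.2.1 p.2.2 : Fin (n + 1) → G) := hp
    have hq1' : f (Fin.cons (q.2.1 * q.1) q.2.2 : Fin (n + 1) → G) =
        f (Fin.cons (p.2.1 * p.1) p.2.2 : Fin (n + 1) → G) := hq1
    have hq2' : f (Fin.cons q.2.1 q.2.2 : Fin (n + 1) → G) =
        f (Fin.cons p.2.1 p.2.2 : Fin (n + 1) → G) := hq2
    show f (Fin.cons (q.2.1 * q.1) q.2.2 : Fin (n + 1) → G) =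
      f (Fin.cons q.2.1 q.2.2 : Fin (n + 1) → G)
    rw [hq1', hq2', hp']
  obtain ⟨s, t, hs, -, h1, ht, hst⟩ := generalized_tube_lemma (isCompact_singleton (x := (1 : G)))
    (isCompact_univ (X := G × (Fin n → G))) hW (by
      rintro ⟨u, g, v⟩ ⟨hu, -⟩
      have hu' : u = 1 := hu
      subst hu'
      show f (Fin.cons (g * 1) v : Fin (n + 1) → G) = f (Fin.cons g v : Fin (n + 1) → G)
      rw [mul_one])
  refine Subgroup.isOpen_of_mem_nhds U (g := 1) ?_
  refine Filter.mem_of_superset (hs.mem_nhds (h1 rfl)) ?_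
  intro u hu g v
  exact hst (show (u, (g, v)) ∈ s ×ˢ t from ⟨hu, ht (mem_univ _)⟩)

end Pool.Agent.H99R3.CDQ
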